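import Pool.Agent.Helper99.SI.StM

set_option autoImplicit false
set_option linter.unusedSectionVars false
set_option linter.unusedVariables false

/-!
# Project SI, module M7: Phi and C on Y, formulas
-/

namespace Pool.Agent.Helper40.SI

open Pool.Agent.Helper99.SI LaurentPolynomial

section

variable {L : Type} [Ring L] [Algebra ℂ L]

theorem smul_CT (c : ℂ) (j : ℤ) (y : LL L) :
    (C c * T j : AA) • y = C (algebraMap ℂ L c) * T j * y := by
  rw [smul_def', cen_CT]

theorem smul_T (j : ℤ) (y : LL L) : (T j : AA) • y = T j * y := by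
  have h := smul_CT (L := L) 1 j y
  rw [map_one, one_mul, map_one, map_one, one_mul] at h
  exact h

theorem smul_C (c : ℂ) (y : LL L) : (C c : AA) • y = C (algebraMap ℂ L c) * y := by
  have h := smul_CT (L := L) c 0 y
  rw [T_zero, mul_one, T_zero, mul_one] at h
  exact h

variable [StarRing L] [StarModule ℂ L]

/-- the facts about bt which are used -/
structure Bt (B : ZGr L) : Prop where
  mul : ∀ y z : L, B.bt (y * z) = B.bt y * B.bt z
  one : B.bt 1 = 1
  add : ∀ y z : L, B.bt (y + z) = B.bt y + B.bt z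

variable {B : ZGr L}

theorem bt_zero (hB : Bt B) : B.bt 0 = 0 := by
  have h := hB.add 0 0
  rw [add_zero] at h
  exact left_eq_add.1 h

theorem p_hom (B : ZGr L) (j : ℤ) (y : L) (h : B.p j y = y) (k : ℤ) :
    B.p k y = if k = j then y else 0 := by
  rw [← h, B.pp]

theorem bt_hom (B : ZGr L) (j : ℤ) (y : L) (h : B.p j y = y) : B.bt y = C y * T j := by
  rw [← single_eq_C_mul_T]
  ext k
  rw [ZGr.bt_coeff, p_hom B j y h, AddMonoidAlgebra.coeff_single, Finsupp.single_apply]
  by_cases hk : k = j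
  · rw [if_pos hk, if_pos hk.symm]
  · rw [if_neg hk, if_neg (fun h1 => hk h1.symm)]

variable {n : ℕ} (D : Sys n L)

theorem CL_add (hB : Bt D.b) (y z : LL L) : D.CL (y + z) = D.CL y + D.CL z := by
  unfold Sys.CL
  rw [AddMonoidAlgebra.coeff_add]
  refine Finsupp.sum_add_index' ?_ ?_
  · intro j
    rw [star_zero, bt_zero hB, mul_zero]
  · intro j a b
    rw [star_add, hB.add, mul_add]

theorem CL_CT (hB : Bt D.b) (a : L) (k : ℤ) : D.CL (C a * T k) = T k * D.b.bt (star a) := by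
  unfold Sys.CL
  rw [← single_eq_C_mul_T, AddMonoidAlgebra.coeff_single]
  refine Finsupp.sum_single_index ?_
  rw [star_zero, bt_zero hB, mul_zero]

theorem CL_C (hB : Bt D.b) (a : L) : D.CL (C a) = D.b.bt (star a) := by
  have h := CL_CT D hB a 0
  rw [T_zero, mul_one, one_mul] at h
  exact h

theorem CL_zero (hB : Bt D.b) : D.CL 0 = 0 := by
  have h := CL_add D hB 0 0
  rw [add_zero] at h
  exact left_eq_add.1 h

theorem CL_mul (hB : Bt D.b) (y z : LL L) : D.CL (y * z) = D.CL z * D.CL y := by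
  induction y using LaurentPolynomial.induction_on' with
  | add p q hp hq => rw [add_mul, CL_add D hB, CL_add D hB, hp, hq, mul_add]
  | C_mul_T j a =>
    induction z using LaurentPolynomial.induction_on' with
    | add p q hp hq => rw [mul_add, CL_add D hB, CL_add D hB, hp, hq, add_mul]
    | C_mul_T k b =>
      have h1 : (C a * T j * (C b * T k) : LL L) = C (a * b) * T (j + k) := by
        rw [map_mul, T_add]
        rw [mul_assoc, ← mul_assoc (T j), (commute_T j (C b)).eq, mul_assoc, mul_assoc]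
      rw [h1, CL_CT D hB, CL_CT D hB, CL_CT D hB, star_mul, hB.mul, add_comm, T_add]
      rw [mul_assoc, mul_assoc]
      congr 1
      rw [← mul_assoc, ← mul_assoc, (commute_T j (D.b.bt (star b))).eq]

theorem CL_T (hB : Bt D.b) (k : ℤ) : D.CL (T k) = T k := by
  have h := CL_CT D hB 1 k
  rw [map_one, one_mul, star_one, hB.one, mul_one] at h
  exact h

theorem CL_smul (hB : Bt D.b) (hs : ∀ (c : ℂ) (y : L), D.b.bt (c • y) = (C c : AA) • D.b.bt y)
    (c : ℂ) (j : ℤ) (y : LL L) :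
    D.CL ((C c * T j : AA) • y) = (C (star c) * T j : AA) • D.CL y := by
  rw [smul_CT, smul_CT, CL_mul D hB]
  have h1 : D.CL (C (algebraMap ℂ L c) * T j) = C (algebraMap ℂ L (star c)) * T j := by
    rw [CL_CT D hB]
    have h2 : star (algebraMap ℂ L c) = star c • (1 : L) := by
      rw [Algebra.algebraMap_eq_smul_one, star_smul, star_one]
    rw [h2, hs, hB.one, smul_C, mul_one, (commute_T j _).eq]
  rw [h1, ← cen_CT, ← cen_comm]

theorem fin_bt (hB : Bt B) (y : L) (f : LL L → LL L) (g : L → L) (hg : g 0 = 0) (hf : f 0 = 0) :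
    (Function.support fun j : ℤ => (T j : AA) • f (B.bt (g (B.p j y)))).Finite := by
  refine (B.fin y).subset ?_
  intro j hj h
  apply hj
  change (T j : AA) • f (B.bt (g (B.p j y))) = 0
  rw [h, hg, bt_zero hB, hf, smul_zero]

theorem fin_C (B : ZGr L) (y : L) (g : L → L) (hg : g 0 = 0) :
    (Function.support fun j : ℤ => (T j : AA) • (C (g (B.p j y)) : LL L)).Finite := by
  refine (B.fin y).subset ?_
  intro j hj h
  apply hj
  change (T j : AA) • (C (g (B.p j y)) : LL L) = 0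
  rw [h, hg, map_zero, smul_zero]

theorem coeff_finsum (f : ℤ → LL L) (hf : (Function.support f).Finite) (k : ℤ) :
    (∑ᶠ j, f j).coeff k = ∑ᶠ j, (f j).coeff k := by
  rw [finsum_eq_sum_of_support_subset f (s := hf.toFinset) (by simp)]
  rw [finsum_eq_sum_of_support_subset (fun j => (f j).coeff k) (s := hf.toFinset)]
  · rw [AddMonoidAlgebra.coeff_sum, Finsupp.finsetSum_apply]
  · intro j hj
    simp only [Set.Finite.coe_toFinset, Function.mem_support] at hj ⊢
    intro h
    apply hj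
    rw [h]
    rfl

theorem bt_eq (B : ZGr L) (y : L) : B.bt y = ∑ᶠ j : ℤ, (T j : AA) • (C (B.p j y) : LL L) := by
  ext k
  rw [coeff_finsum _ (fin_C B y (fun z => z) rfl), ZGr.bt_coeff]
  rw [finsum_eq_single _ k]
  · rw [smul_T, (commute_T k _).eq, ← single_eq_C_mul_T, AddMonoidAlgebra.coeff_single,
      Finsupp.single_apply, if_pos rfl]
  · intro j hj
    rw [smul_T, (commute_T j _).eq, ← single_eq_C_mul_T, AddMonoidAlgebra.coeff_single,
      Finsupp.single_apply, if_neg hj]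

theorem CL_sum (hB : Bt D.b) {ι : Type} (s : Finset ι) (f : ι → LL L) :
    D.CL (∑ i ∈ s, f i) = ∑ i ∈ s, D.CL (f i) := by
  let F : LL L →+ LL L := ⟨⟨D.CL, CL_zero D hB⟩, CL_add D hB⟩
  exact map_sum F f s

theorem star_p (B : ZGr L) (j : ℤ) (y : L) : star (B.p j y) = B.p (-j) (star y) := (B.st j y).symm

theorem CL_bt (hB : Bt D.b) (hs : ∀ (c : ℂ) (y : L), D.b.bt (c • y) = (C c : AA) • D.b.bt y)
    (y : L) : D.CL (D.b.bt y) = C (star y) := by
  have h1 : (D.b.bt y) = ∑ j ∈ (D.b.fin y).toFinset, (T j : AA) • (C (D.b.p j y) : LL L) := by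
    rw [bt_eq]
    refine finsum_eq_sum_of_support_subset _ ?_
    intro j hj
    simp only [Set.Finite.coe_toFinset]
    intro h
    apply hj
    change (T j : AA) • (C (D.b.p j y) : LL L) = 0
    rw [h, map_zero, smul_zero]
  rw [h1, CL_sum D hB]
  have h2 : ∀ j ∈ (D.b.fin y).toFinset, D.CL ((T j : AA) • (C (D.b.p j y) : LL L)) =
      C (star (D.b.p j y)) := by
    intro j _
    have h3 := CL_smul D hB hs 1 j (C (D.b.p j y))
    rw [map_one, one_mul, star_one, map_one, one_mul] at h3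
    rw [h3, CL_C D hB, smul_T]
    have h4 : D.b.p (-j) (star (D.b.p j y)) = star (D.b.p j y) := by
      rw [star_p, D.b.pp, if_pos rfl]
    rw [bt_hom D.b (-j) _ h4, (commute_T j _).eq, mul_assoc, ← T_add, neg_add_cancel, T_zero,
      mul_one]
  rw [Finset.sum_congr rfl h2, ← map_sum, ← star_sum]
  congr 2
  have h5 := D.b.sum y
  rw [finsum_eq_sum_of_support_subset _ (s := (D.b.fin y).toFinset)] at h5
  · exact h5
  · intro j hj
    simpa using hj

theorem CL_CL (hB : Bt D.b) (hs : ∀ (c : ℂ) (y : L), D.b.bt (c • y) = (C c : AA) • D.b.bt y)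
    (y : LL L) : D.CL (D.CL y) = y := by
  induction y using LaurentPolynomial.induction_on' with
  | add p q hp hq => rw [CL_add D hB, CL_add D hB, hp, hq]
  | C_mul_T j a =>
    rw [CL_CT D hB, CL_mul D hB, CL_T D hB, CL_bt D hB hs, star_star]

theorem PhiL_apply (y : LL L) : D.PhiL y = ∑ i, C (star (D.x i)) * (y * D.b.bt (D.x i)) := by
  unfold Sys.PhiL
  rw [LinearMap.sum_apply]
  rfl

theorem CL_PhiL (hB : Bt D.b) (hs : ∀ (c : ℂ) (y : L), D.b.bt (c • y) = (C c : AA) • D.b.bt y)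
    (y : LL L) : D.CL (D.PhiL y) = D.PhiL (D.CL y) := by
  rw [PhiL_apply, PhiL_apply, CL_sum D hB]
  refine Finset.sum_congr rfl fun i _ => ?_
  rw [CL_mul D hB, CL_mul D hB, CL_bt D hB hs, CL_C D hB, star_star, mul_assoc]

theorem w_snoc (γ : W n) (i : Fin n) : D.w (γ ++ [i]) = D.w γ * D.x i := by
  unfold Sys.w wd
  rw [List.map_append, List.prod_append]
  simp

theorem Phi_mem (hB : Bt D.b) (X0 : Set L) (y : LL L) (hy : y ∈ D.YY X0) :
    D.PhiL y ∈ D.YY X0 := by
  unfold Sys.YY at hy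
  induction hy using Submodule.span_induction with
  | mem y hy =>
    obtain ⟨x, hx, γ, q, rfl⟩ := hy
    rw [PhiL_apply]
    refine Submodule.sum_mem _ fun i _ => ?_
    refine Submodule.subset_span ⟨x, hx, γ ++ [i], q ++ [i], ?_⟩
    rw [w_snoc, w_snoc, star_mul, map_mul, hB.mul]
    simp only [mul_assoc]
  | zero => rw [map_zero]; exact Submodule.zero_mem _
  | add a b _ _ ha hb => rw [map_add]; exact Submodule.add_mem _ ha hb
  | smul a y _ hy => rw [map_smul]; exact Submodule.smul_mem _ _ hy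

theorem CL_mem (hB : Bt D.b) (hs : ∀ (c : ℂ) (y : L), D.b.bt (c • y) = (C c : AA) • D.b.bt y)
    (X0 : Set L) (hX : ∀ x ∈ X0, D.b.p 0 x = x ∧ star x = x) (y : LL L) (hy : y ∈ D.YY X0) :
    D.CL y ∈ D.YY X0 := by
  unfold Sys.YY at hy
  induction hy using Submodule.span_induction with
  | mem y hy =>
    obtain ⟨x, hx, γ, q, rfl⟩ := hy
    refine Submodule.subset_span ⟨x, hx, q, γ, ?_⟩
    rw [CL_mul D hB, CL_mul D hB, CL_bt D hB hs, CL_C D hB, CL_C D hB, star_star, (hX x hx).2,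
      bt_hom D.b 0 x (hX x hx).1, T_zero, mul_one, mul_assoc]
  | zero => rw [CL_zero D hB]; exact Submodule.zero_mem _
  | add a b _ _ ha hb => rw [CL_add D hB]; exact Submodule.add_mem _ ha hb
  | smul a y _ hy =>
    induction a using LaurentPolynomial.induction_on' with
    | add p q hp hq => rw [add_smul, CL_add D hB]; exact Submodule.add_mem _ hp hq
    | C_mul_T j c => rw [CL_smul D hB hs]; exact Submodule.smul_mem _ _ hy

/-- facts about evl -/
structure Ev (B : ZGr L) : Prop where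
  mul : ∀ (t : ℂ) (y z : LL L), t ≠ 0 → evl t (y * z) = evl t y * evl t z
  add : ∀ (t : ℂ) (y z : LL L), evl t (y + z) = evl t y + evl t z
  bt : ∀ (t : ℂ) (y : L), evl t (B.bt y) = B.ev t y
  C : ∀ (t : ℂ) (y : L), evl t (C y) = y

theorem evl_CT (t : ℂ) (a : L) (k : ℤ) : evl t (C a * T k) = t ^ k • a := by
  unfold evl
  rw [← single_eq_C_mul_T, AddMonoidAlgebra.coeff_single]
  refine Finsupp.sum_single_index ?_
  rw [smul_zero]

theorem evl_T (t : ℂ) (k : ℤ) : evl t (T k : LL L) = t ^ k • (1 : L) := by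
  have h := evl_CT t (1 : L) k
  rw [map_one, one_mul] at h
  exact h

theorem evl_CL (hB : Bt D.b) (hE : Ev D.b) (t : ℝ) (y : LL L) (ht : t ≠ 0) :
    evl (t : ℂ) (D.CL y) = D.b.ev (t : ℂ) (star (evl (t : ℂ) y)) := by
  induction y using LaurentPolynomial.induction_on' with
  | add p q hp hq => rw [CL_add D hB, hE.add, hE.add, star_add, map_add, hp, hq]
  | C_mul_T j a =>
    rw [CL_CT D hB, hE.mul _ _ _ (by exact_mod_cast ht), evl_T, hE.bt, evl_CT, star_smul, map_smul,
      smul_mul_assoc, one_mul]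
    congr 1
    rw [star_zpow₀]
    congr 1
    exact (Complex.conj_ofReal t).symm

theorem evl_zero' (hE : Ev B) (t : ℂ) : evl t (0 : LL L) = 0 := by
  have h := hE.C t 0
  rw [map_zero] at h
  exact h

theorem evl_sum (hE : Ev B) (t : ℂ) {ι : Type} (s : Finset ι) (f : ι → LL L) :
    evl t (∑ i ∈ s, f i) = ∑ i ∈ s, evl t (f i) := by
  let F : LL L →+ L := ⟨⟨evl t, evl_zero' hE t⟩, hE.add t⟩
  exact map_sum F f s

theorem Phi_apply (t : ℂ) (y : L) : D.Phi t y = ∑ i, star (D.x i) * (y * D.b.ev t (D.x i)) := by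
  unfold Sys.Phi
  rw [LinearMap.sum_apply]
  rfl

theorem evl_PhiL (hE : Ev D.b) (t : ℂ) (y : LL L) (ht : t ≠ 0) :
    evl t (D.PhiL y) = D.Phi t (evl t y) := by
  rw [PhiL_apply, Phi_apply, evl_sum hE]
  refine Finset.sum_congr rfl fun i _ => ?_
  rw [hE.mul _ _ _ ht, hE.mul _ _ _ ht, hE.C, hE.bt]

theorem C_eq (B : ZGr L)
    (hC : ∀ y : L, (C y : LL L) = ∑ᶠ j : ℤ, (T (-j) : AA) • B.bt (B.p j y)) (y : L) :
    (C (star y) : LL L) = ∑ᶠ j : ℤ, (T j : AA) • B.bt (star (B.p j y)) := by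
  rw [hC, ← finsum_comp_equiv (Equiv.neg ℤ)]
  refine finsum_congr fun j => ?_
  rw [Equiv.neg_apply, neg_neg, star_p]

theorem fml1 (hB : Bt D.b)
    (hC : ∀ y : L, (C y : LL L) = ∑ᶠ j : ℤ, (T (-j) : AA) • D.b.bt (D.b.p j y)) (ν : W n) :
    D.PhiL (D.b.bt (D.w ν)) = ∑ i, ∑ᶠ j : ℤ,
      (T j : AA) • D.b.bt (star (D.b.p j (D.x i)) * D.w ν * D.x i) := by
  rw [PhiL_apply]
  refine Finset.sum_congr rfl fun i _ => ?_
  rw [C_eq D.b hC, finsum_mul']
  · refine finsum_congr fun j => ?_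
    rw [smul_mul_assoc, ← hB.mul, ← hB.mul, mul_assoc]
  · exact fin_bt hB (D.x i) (fun z => z) star (star_zero L) rfl

theorem fml2 (ν : W n) :
    D.PhiL (C (star (D.w ν))) = ∑ i, ∑ᶠ j : ℤ,
      (T j : AA) • (C (star (star (D.b.p j (D.x i)) * D.w ν * D.x i)) : LL L) := by
  rw [PhiL_apply]
  refine Finset.sum_congr rfl fun i _ => ?_
  rw [bt_eq D.b (D.x i), ← mul_assoc, mul_finsum']
  · refine finsum_congr fun j => ?_
    rw [mul_smul_comm, ← map_mul, ← map_mul, star_mul, star_mul, star_star, mul_assoc]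
  · exact fin_C D.b (D.x i) (fun z => z) rfl

end

theorem hM7 (h1 : StA0) (h2 : StM0) : StM7 := by
  intro n L _ _ _ _ _ D X0 hX
  obtain ⟨m1, m2, m3, m4, m5, m6, m7, m8, m9, m10, -, -⟩ := h2 L D.b
  have hB : Bt D.b := ⟨m1, m2, m3⟩
  have hE : Ev D.b := ⟨m6, m7, m9, m10⟩
  exact ⟨Phi_mem D hB X0, CL_mem D hB m4 X0 hX, CL_add D hB, CL_smul D hB m4, CL_CL D hB m4,
    CL_PhiL D hB m4, CL_bt D hB m4, CL_C D hB, evl_CL D hB hE, evl_PhiL D hE,
    fml1 D hB m5, fml2 D⟩

end Pool.Agent.Helper40.SI
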