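import Pool.Agent.Helper99.SI.StT

set_option autoImplicit false
set_option linter.unusedSectionVars false

/-!
# Project SI, module T2: bounds
-/

namespace Pool.Agent.Helper40.SI

open Pool.Agent.Helper99.SI Pool.Agent.Helper92 Pool.Agent.Helper92.LV

section

variable {n : ℕ} {V E : Type} [Fintype V] [Fintype E] [DecidableEq V] [DecidableEq E]
  {G : LV.Graph V E} {L : Type} [Ring L] [Algebra ℂ L]

theorem rose_conn (n : ℕ) : (rose n).StronglyConnected := by
  intro a b
  exact Graph.Reach.refl a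

theorem rose_two (n : ℕ) (hn : 2 ≤ n) : (rose n).TwoOut := by
  intro a
  refine ⟨⟨0, by omega⟩, ⟨1, by omega⟩, ?_, rfl, rfl⟩
  intro h
  have := congrArg Fin.val h
  simp at this

theorem rose_one (f : Fam ℂ (rose n) L) : f.v () = 1 := by
  have h := f.one
  simpa using h

theorem rose_pl (f : Fam ℂ (rose n) L) (l : List (Fin n)) : f.pl () l = wd f.e l.reverse := by
  induction l with
  | nil =>
    change f.v () = _
    rw [rose_one]
    rfl
  | cons x l ih =>
    change f.pl () l * f.e x = _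
    rw [ih]
    unfold wd
    rw [List.reverse_cons, List.map_append, List.prod_append]
    simp

theorem rose_ok (l : List (Fin n)) : ok (rose n) () l := by
  induction l with
  | nil => trivial
  | cons x l ih => exact ⟨ih, rfl⟩

/-- the path with word κ -/
def rp (κ : W n) : Pa (rose n) := ⟨((), κ.reverse), rose_ok _⟩

theorem rp_len (κ : W n) : (rp κ).len = κ.length := by
  change κ.reverse.length = _
  exact List.length_reverse

theorem rp_pe (f : Fam ℂ (rose n) L) (κ : W n) : f.pe (rp κ) = wd f.e κ := by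
  change f.pl () κ.reverse = _
  rw [rose_pl, List.reverse_reverse]

theorem rose_O (f : Fam ℂ (rose n) L) : f.O = Submodule.span ℂ (Set.range (wd f.e)) := by
  unfold Fam.O
  congr 1
  ext y
  constructor
  · rintro ⟨⟨⟨a, l⟩, hp⟩, rfl⟩
    exact ⟨l.reverse, (rose_pl f l).symm⟩
  · rintro ⟨κ, rfl⟩
    exact ⟨rp κ, rp_pe f κ⟩

/-- ev z as an algebra homomorphism -/
noncomputable def evh [StarRing L] (B : ZGr L) (z : ℂ)
    (hm : ∀ y w : L, B.ev z (y * w) = B.ev z y * B.ev z w) (h1 : B.ev z 1 = 1) : L →ₐ[ℂ] L :=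
  AlgHom.ofLinearMap (B.ev z) h1 hm

end

theorem hT2 (h1 : StA0) : StT2 := by
  classical
  intro n V E _ _ _ _ G L _ _ _ _ T hn hc hG
  obtain ⟨D1, _, _, δ1, hδ1, hW1⟩ := exists_div ℂ (Fin n)
  obtain ⟨D2, _, _, δ2, hδ2, hW2⟩ := exists_div ℂ E
  refine ⟨?_, ?_, ?_⟩
  · obtain ⟨m, hm⟩ := bounded T.fE T.f δ1 T.Egen T.Eind hδ1 hW1 (rose_conn n) (rose_two n hn)
      T.fgen T.find hG
    refine ⟨m, fun s hs κ hκ => ?_⟩
    have h2 := hm s hs (rp κ) (by rw [rp_len]; exact hκ)
    rw [rp_pe, rose_O] at h2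
    exact h2
  · obtain ⟨m, hm⟩ := bounded T.f T.fE δ2 T.fgen T.find hδ2 hW2 hc hG T.Egen T.Eind
      (rose_two n hn)
    refine ⟨m, fun μ p hp => ?_⟩
    refine hm _ ?_ p hp
    rw [rose_O]
    exact Submodule.subset_span ⟨μ, rfl⟩
  · intro z hz
    obtain ⟨-, a2, a3, a4, a5, -⟩ := h1 L T.b
    let φ : L →ₐ[ℂ] L := evh T.b z (fun y w => a2 z y w hz) (a3 z)
    have hφ : ∀ y, φ y = T.b.ev z y := fun y => rfl
    have hinj : Function.Injective φ := by
      intro y w hyw
      rw [hφ, hφ] at hyw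
      have h2 := congrArg (T.b.ev z⁻¹) hyw
      rw [a4 _ _ _ (inv_ne_zero hz) hz, a4 _ _ _ (inv_ne_zero hz) hz, inv_mul_cancel₀ hz, a5,
        a5] at h2
      exact h2
    have hsur : Function.Surjective φ := by
      intro y
      refine ⟨T.b.ev z⁻¹ y, ?_⟩
      rw [hφ, a4 _ _ _ hz (inv_ne_zero hz), mul_inv_cancel₀ hz, a5]
    obtain ⟨m, hm⟩ := bounded T.fE (T.fE.map φ) δ1 T.Egen T.Eind hδ1 hW1 (rose_conn n)
      (rose_two n hn) (T.fE.map_gens φ hsur T.Egen) (T.fE.map_indep φ hinj T.Eind)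
      (rose_two n hn)
    refine ⟨m, fun μ κ hκ => ?_⟩
    have h3 : φ (wd T.fE.e μ) ∈ (T.fE.map φ).O := by
      refine Submodule.subset_span ⟨rp μ, ?_⟩
      rw [T.fE.map_pe φ, rp_pe]
    have h2 := hm _ h3 (rp κ) (by rw [rp_len]; exact hκ)
    rw [rp_pe, rose_O] at h2
    exact h2

end Pool.Agent.Helper40.SI
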